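import Pool.Agent.Lib.MP_dd30de_lc.FinRand

set_option autoImplicit false

namespace Pool.Agent.Results.MP_dd30de_lc.RandomUnitary

open MeasureTheory

/-- The strong operator topology on the unitary group of `H` (the group of surjective linear
isometries): pointwise norm convergence. -/
@[reducible] noncomputable def sot (H : Type) [NormedAddCommGroup H] [InnerProductSpace ℂ H] :
    TopologicalSpace (H ≃ₗᵢ[ℂ] H) :=
  TopologicalSpace.induced (fun u : H ≃ₗᵢ[ℂ] H => fun v : H => u v) Pi.topologicalSpace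

/-- `T` is a bilateral shift of countably infinite multiplicity on a subspace whose orthogonal
complement is finite-dimensional. -/
def AlmostShift {H : Type} [NormedAddCommGroup H] [InnerProductSpace ℂ H] (T : H ≃ₗᵢ[ℂ] H) :
    Prop :=
  ∃ f : ℤ × ℕ → H, Orthonormal ℂ f ∧ (∀ n i, T (f (n, i)) = f (n + 1, i)) ∧
    FiniteDimensional ℂ (Submodule.span ℂ (Set.range f))ᗮ

theorem result (H : Type) [NormedAddCommGroup H] [InnerProductSpace ℂ H] [CompleteSpace H]
    (e : HilbertBasis ℕ ℂ H) :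
    ∃ μ : @Measure (H ≃ₗᵢ[ℂ] H) (@borel _ (sot H)),
      @IsProbabilityMeasure _ (@borel _ (sot H)) μ ∧
        ∀ g h : H ≃ₗᵢ[ℂ] H, μ {x | ¬ AlmostShift (g * x * h)} = 0 := by
  obtain ⟨μ, h1, h2⟩ := Pool.Agent.Lib.MP_dd30de_lc.exists_witness e
  exact ⟨μ, h1, fun g h => measure_mono_null
    (t := {x | ¬ Pool.Agent.Lib.MP_dd30de_lc.Ent e (g * x * h)})
    (fun _ hx hx' => hx hx'.almost) (h2 g h)⟩

end Pool.Agent.Results.MP_dd30de_lc.RandomUnitary
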