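import Pool.Agent.Lib.MP_dd30de_lc.FinPol
import Pool.Agent.Lib.MP_dd30de_lc.Tightness

set_option autoImplicit false

namespace Pool.Agent.Results.MP_dd30de_lc.UniqueNonNullClass

open MeasureTheory

/-- The strong operator topology on the unitary group of `H` (the group of surjective linear
isometries): pointwise norm convergence. -/
@[reducible] noncomputable def sot (H : Type) [NormedAddCommGroup H] [InnerProductSpace ℂ H] :
    TopologicalSpace (H ≃ₗᵢ[ℂ] H) :=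
  TopologicalSpace.induced (fun u : H ≃ₗᵢ[ℂ] H => fun v : H => u v) Pi.topologicalSpace

/-- Haar null sets in the sense of Christensen, for a possibly non-abelian topological group. -/
def HaarNull (G : Type) [Group G] (τ : TopologicalSpace G) (A : Set G) : Prop :=
  ∃ B : Set G, @MeasurableSet G (@borel G τ) B ∧ A ⊆ B ∧
    ∃ μ : @Measure G (@borel G τ), @IsProbabilityMeasure G (@borel G τ) μ ∧
      ∀ g h : G, μ ((fun x => g * x * h) '' B) = 0

/-- The conjugacy class of `a`. -/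
def conjClass (G : Type) [Group G] (a : G) : Set G := {x | ∃ v : G, x = v * a * v⁻¹}

/-- Exactly one conjugacy class is not Haar null: that of the bilateral shift of infinite
multiplicity. -/
theorem result (H : Type) [NormedAddCommGroup H] [InnerProductSpace ℂ H] [CompleteSpace H]
    (e : HilbertBasis ℕ ℂ H) :
    ∃ s : H ≃ₗᵢ[ℂ] H, (∃ f : HilbertBasis (ℤ × ℕ) ℂ H, ∀ n i, s (f (n, i)) = f (n + 1, i)) ∧
      ∀ a : H ≃ₗᵢ[ℂ] H, ¬ HaarNull (H ≃ₗᵢ[ℂ] H) (sot H) (conjClass (H ≃ₗᵢ[ℂ] H) a) ↔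
        a ∈ conjClass (H ≃ₗᵢ[ℂ] H) s := by
  obtain ⟨s, hs0, hs⟩ := Pool.Agent.Lib.MP_dd30de_lc.exists_class_not_null e
  refine ⟨s, hs0, fun a => ⟨fun h => ?_, ?_⟩⟩
  · by_contra ha
    obtain ⟨B, h1, h2, μ, h3, h4⟩ := Pool.Agent.Lib.MP_dd30de_lc.hull_class e a fun h0 => by
      obtain ⟨c, hc⟩ := isConj_iff.mp (hs0.isConj h0)
      exact ha ⟨c, hc.symm⟩
    refine h ⟨B, h1, h2, μ, h3, fun g k => measure_mono_null ?_ (h4 g⁻¹ k⁻¹)⟩
    rintro _ ⟨x, hx, rfl⟩
    simpa [mul_assoc] using hx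
  · rintro ⟨v, rfl⟩ ⟨B, -, hB, μ, hμ, hnull⟩
    let _ : TopologicalSpace (H ≃ₗᵢ[ℂ] H) := sot H
    let _ : MeasurableSpace (H ≃ₗᵢ[ℂ] H) := borel _
    have : BorelSpace (H ≃ₗᵢ[ℂ] H) := ⟨rfl⟩
    obtain ⟨g, hg⟩ := hs μ id (fun i j => by
      have h0 : Continuous (fun u : H ≃ₗᵢ[ℂ] H => fun v : H => u v) := continuous_induced_dom
      have h1 : Continuous (fun u : H ≃ₗᵢ[ℂ] H => u (e j)) := (continuous_apply (e j)).comp h0
      have h2 : Continuous (fun y : H => ‖inner ℂ (e i) y‖) := by fun_prop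
      exact (h2.comp h1).measurable)
    refine hg (measure_mono_null (fun x hx => ?_) (hnull g⁻¹ 1))
    refine ⟨g * x, hB ?_, by simp⟩
    obtain ⟨c, hc⟩ := isConj_iff.mp hx
    exact ⟨c * v⁻¹, hc.symm.trans (by group)⟩

end Pool.Agent.Results.MP_dd30de_lc.UniqueNonNullClass
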